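import Mathlib
set_option autoImplicit false

/-!
Matrices with constant row sums and negative off-diagonal entries.
-/

namespace Pool.Agent.TH690.UF

open Matrix

/-- If all row sums of the real `(g + 1) × (g + 1)` matrix `I` are equal to `κ` and its off-diagonal
entries are smaller than `- w`, where `w ≥ 0` and `κ + (g + 1) w ≥ 0`, then the `g × g` matrix of the
differences of the rows to the row `0`, without the column `0`, is nonsingular. -/
theorem det_ne_zero {g : ℕ} (I : Fin (g + 1) → Fin (g + 1) → ℝ) {κ w : ℝ}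
    (hκ : 0 ≤ κ + (g + 1) * w) (hrow : ∀ i, ∑ j, I i j = κ)
    (hneg : ∀ i j, i ≠ j → I i j < -w) :
    (Matrix.of fun j k : Fin g => I k.succ j.succ - I 0 j.succ).det ≠ 0 := by
  intro hdet
  obtain ⟨v, hv0, hv⟩ := Matrix.exists_vecMul_eq_zero_iff.2 hdet
  set c : Fin (g + 1) → ℝ := Fin.cons 0 v with hc
  set C : ℝ := ∑ j, c j * I 0 j with hCdef
  have hC : ∀ i, ∑ j, c j * I i j = C := by
    intro i
    refine Fin.cases rfl (fun k => ?_) i
    have h1 := congrFun hv k
    rw [Matrix.vecMul, dotProduct, Pi.zero_apply] at h1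
    rw [hCdef, Fin.sum_univ_succ, Fin.sum_univ_succ, hc]
    simp only [Fin.cons_zero, Fin.cons_succ, zero_mul, zero_add]
    rw [← sub_eq_zero, ← Finset.sum_sub_distrib, ← h1]
    refine Finset.sum_congr rfl fun j _ => ?_
    rw [Matrix.of_apply]
    ring
  have hsub : ∀ i, ∑ j, (c j - c i) * I i j = C - κ * c i := by
    intro i
    simp only [sub_mul, Finset.sum_sub_distrib, ← Finset.mul_sum]
    rw [hC i, hrow i]
    ring
  obtain ⟨p, -, hp⟩ := Finset.exists_max_image Finset.univ c ⟨0, Finset.mem_univ _⟩
  obtain ⟨q, -, hq⟩ := Finset.exists_min_image Finset.univ c ⟨0, Finset.mem_univ _⟩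
  -- the maximum and the minimum are equal
  have hpq : c p = c q := by
    by_contra hne
    have hlt : c q < c p := lt_of_le_of_ne (hp q (Finset.mem_univ _)) (Ne.symm hne)
    have hqp : q ≠ p := fun h => by rw [h] at hlt; exact lt_irrefl _ hlt
    have h1 : w * ∑ j, (c p - c j) < ∑ j, (c j - c p) * I p j := by
      rw [Finset.mul_sum]
      refine Finset.sum_lt_sum (fun j _ => ?_) ⟨q, Finset.mem_univ q, ?_⟩
      · by_cases hj : p = j
        · rw [hj]; simp
        · have h2 := hneg p j hj
          have h3 := hp j (Finset.mem_univ j)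
          nlinarith
      · have h2 := hneg p q hqp.symm
        nlinarith
    have h2 : ∑ j, (c j - c q) * I q j ≤ -(w * ∑ j, (c j - c q)) := by
      rw [Finset.mul_sum, ← Finset.sum_neg_distrib]
      refine Finset.sum_le_sum fun j _ => ?_
      by_cases hj : q = j
      · rw [hj]; simp
      · have h2 := hneg q j hj
        have h3 := hq j (Finset.mem_univ j)
        nlinarith
    rw [hsub p] at h1
    rw [hsub q] at h2
    have h3 : ∑ j, (c p - c j) + ∑ j, (c j - c q) = (g + 1) * (c p - c q) := by
      rw [← Finset.sum_add_distrib]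
      have h4 : ∀ j : Fin (g + 1), c p - c j + (c j - c q) = c p - c q := fun j => by ring
      simp only [h4, Finset.sum_const, Finset.card_univ, Fintype.card_fin, nsmul_eq_mul]
      push_cast
      ring
    have h4 : (κ + (g + 1) * w) * (c p - c q) < 0 := by
      have h5 : (κ + (g + 1) * w) * (c p - c q) = κ * (c p - c q) +
          w * (∑ j, (c p - c j) + ∑ j, (c j - c q)) := by
        rw [h3]
        ring
      rw [h5]
      linarith
    have h5 : 0 ≤ (κ + (g + 1) * w) * (c p - c q) :=
      mul_nonneg hκ (by linarith)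
    linarith
  have h7 : ∀ j, c j = c p := fun j =>
    le_antisymm (hp j (Finset.mem_univ _)) (hpq.le.trans (hq j (Finset.mem_univ _)))
  refine hv0 (funext fun k => ?_)
  have h8 : c k.succ = c 0 := (h7 _).trans (h7 0).symm
  rw [hc] at h8
  simpa using h8

end Pool.Agent.TH690.UF
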