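import Pool.Agent.TH826.UH.Roots
set_option autoImplicit false

/-!
Separation for a polynomial `F` of degree `g + 1` with values of absolute value at most `T ≤ 2` at
`g + 1` points far from each other.
-/

namespace Pool.Agent.TH690.UF

open Polynomial

open Pool.Agent.TH826.UH (Sepd outer exists_gap)

variable {g : ℕ} {F : ℂ[X]} {b : Fin (g + 1) → ℂ}

/-- Lagrange interpolation. -/
theorem eval_eq (hdeg : F.natDegree = g + 1) (hb : Function.Injective b) {x : ℂ}
    (hx : ∀ i, x ≠ b i) :
    F.eval x = (∏ i, (x - b i)) * (F.leadingCoeff +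
      ∑ i, (∏ j ∈ Finset.univ.erase i, (b i - b j)⁻¹) * (x - b i)⁻¹ * F.eval (b i)) := by
  classical
  set N : ℂ[X] := Lagrange.nodal Finset.univ b with hN
  have hNm : N.Monic := Lagrange.nodal_monic
  have hNd : N.natDegree = g + 1 := by
    rw [hN, Lagrange.natDegree_nodal, Finset.card_univ, Fintype.card_fin]
  have hF0 : F ≠ 0 := by
    intro h
    rw [h, natDegree_zero] at hdeg
    omega
  have hl0 : F.leadingCoeff ≠ 0 := leadingCoeff_ne_zero.2 hF0
  set G : ℂ[X] := F - C F.leadingCoeff * N with hG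
  have hGdeg : G.degree < (Finset.univ : Finset (Fin (g + 1))).card := by
    have h1 : (C F.leadingCoeff * N).degree = F.degree := by
      rw [degree_C_mul hl0, degree_eq_natDegree hNm.ne_zero, degree_eq_natDegree hF0, hNd, hdeg]
    have h2 : (C F.leadingCoeff * N).leadingCoeff = F.leadingCoeff := by
      rw [leadingCoeff_mul, leadingCoeff_C, hNm.leadingCoeff, mul_one]
    have h3 := degree_sub_lt_left (p := F) (q := C F.leadingCoeff * N) h1.symm hF0 h2.symm
    rw [Finset.card_univ, Fintype.card_fin, ← hdeg, ← degree_eq_natDegree hF0]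
    exact h3
  have hNb : ∀ i, N.eval (b i) = 0 := fun i =>
    Lagrange.eval_nodal_at_node (Finset.mem_univ i)
  have h1 := Lagrange.eq_interpolate (s := Finset.univ) (v := b) (hb.injOn) hGdeg
  have h2 := congrArg (eval x) h1
  rw [Lagrange.eval_interpolate_not_at_node _ (fun i _ => hx i)] at h2
  have hNx : N.eval x = ∏ i, (x - b i) := Lagrange.eval_nodal
  have h3 : F.eval x = G.eval x + F.leadingCoeff * N.eval x := by
    rw [hG, eval_sub, eval_mul, eval_C]
    ring
  rw [h3, h2, hNx, mul_add, add_comm]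
  congr 1
  · ring
  · have h4 : ∀ i, G.eval (b i) = F.eval (b i) := fun i => by
      rw [hG, eval_sub, eval_mul, eval_C, hNb, mul_zero, sub_zero]
    congr 1
    refine Finset.sum_congr rfl fun i _ => ?_
    rw [h4]
    rfl

/-- The separation criterion. -/
theorem sepd (hdeg : F.natDegree = g + 1) {D T : ℝ} (hD0 : 0 < D)
    (hsep : ∀ i j, i ≠ j → D ≤ ‖b i - b j‖) (hval2 : ∀ i, ‖F.eval (b i)‖ ≤ 2)
    (hval : ∀ i, ‖F.eval (b i)‖ ≤ T)
    (h : (2 : ℝ) ^ (g + 2) + 2 * T * (g + 1) < ‖F.leadingCoeff‖ * D ^ (g + 1)) :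
    ∃ η, Sepd F b (D / 2) η := by
  have hT : 0 ≤ T := (norm_nonneg _).trans (hval 0)
  have hρ : 0 < D / 2 := by linarith
  have hb : Function.Injective b := by
    intro i j hij
    by_contra hne
    have h1 := hsep i j hne
    rw [hij, sub_self, norm_zero] at h1
    linarith
  have hF0 : F ≠ 0 := by
    intro h
    rw [h, natDegree_zero] at hdeg
    omega
  have hdeg0 : 0 < F.degree := by
    rw [degree_eq_natDegree hF0, hdeg]
    exact_mod_cast Nat.succ_pos g
  have hout : ∀ x ∈ outer b (D / 2), 2 < ‖F.eval x‖ := by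
    intro x hx
    have hxb : ∀ i, x ≠ b i := by
      intro i h1
      have h2 := hx i
      rw [h1, sub_self, norm_zero] at h2
      linarith
    rw [eval_eq hdeg hb hxb, norm_mul, norm_prod]
    set S : ℂ := ∑ i, (∏ j ∈ Finset.univ.erase i, (b i - b j)⁻¹) * (x - b i)⁻¹ * F.eval (b i)
      with hS
    have hSn : ‖S‖ ≤ 2 * T * (g + 1) / D ^ (g + 1) := by
      have h1 : ∀ i ∈ Finset.univ, ‖(∏ j ∈ Finset.univ.erase i, (b i - b j)⁻¹) * (x - b i)⁻¹ *
          F.eval (b i)‖ ≤ 2 * T / D ^ (g + 1) := by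
        intro i _
        rw [norm_mul, norm_mul, norm_prod, norm_inv]
        have h2 : ∏ j ∈ Finset.univ.erase i, ‖(b i - b j)⁻¹‖ ≤ (D⁻¹) ^ g := by
          calc ∏ j ∈ Finset.univ.erase i, ‖(b i - b j)⁻¹‖
              ≤ ∏ _j ∈ Finset.univ.erase i, D⁻¹ := by
                refine Finset.prod_le_prod (fun j _ => norm_nonneg _) fun j hj => ?_
                rw [norm_inv]
                exact inv_anti₀ hD0 (hsep i j (Finset.ne_of_mem_erase hj).symm)
            _ = (D⁻¹) ^ g := by
                rw [Finset.prod_const, Finset.card_erase_of_mem (Finset.mem_univ i),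
                  Finset.card_univ, Fintype.card_fin]
                rfl
        have h3 : ‖x - b i‖⁻¹ ≤ (D / 2)⁻¹ := inv_anti₀ hρ (hx i)
        calc (∏ j ∈ Finset.univ.erase i, ‖(b i - b j)⁻¹‖) * ‖x - b i‖⁻¹ * ‖F.eval (b i)‖
            ≤ (D⁻¹) ^ g * (D / 2)⁻¹ * T := by
              refine mul_le_mul (mul_le_mul h2 h3 (by positivity) (by positivity)) (hval i)
                (norm_nonneg _) (by positivity)
          _ = 2 * T / D ^ (g + 1) := by
              rw [inv_pow, pow_succ]
              field_simp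
      refine (norm_sum_le _ _).trans ((Finset.sum_le_sum h1).trans (le_of_eq ?_))
      rw [Finset.sum_const, Finset.card_univ, Fintype.card_fin, nsmul_eq_mul]
      push_cast
      ring
    have hP : (D / 2) ^ (g + 1) ≤ ∏ i, ‖x - b i‖ := by
      calc (D / 2) ^ (g + 1) = ∏ _i : Fin (g + 1), (D / 2) := by
            rw [Finset.prod_const, Finset.card_univ, Fintype.card_fin]
        _ ≤ ∏ i, ‖x - b i‖ := Finset.prod_le_prod (fun i _ => hρ.le) fun i _ => hx i
    have h2 : ‖F.leadingCoeff‖ - ‖S‖ ≤ ‖F.leadingCoeff + S‖ := by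
      have := norm_sub_norm_le F.leadingCoeff (-S)
      rw [norm_neg, sub_neg_eq_add] at this
      exact this
    have hDp : 0 < D ^ (g + 1) := pow_pos hD0 _
    have h3 : 2 < (D / 2) ^ (g + 1) * (‖F.leadingCoeff‖ - 2 * T * (g + 1) / D ^ (g + 1)) := by
      have h4 : (D / 2) ^ (g + 1) * (‖F.leadingCoeff‖ - 2 * T * (g + 1) / D ^ (g + 1)) =
          (‖F.leadingCoeff‖ * D ^ (g + 1) - 2 * T * (g + 1)) / 2 ^ (g + 1) := by
        rw [div_pow]
        field_simp
      rw [h4, lt_div_iff₀ (by positivity)]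
      have h5 : (2 : ℝ) ^ (g + 2) = 2 * 2 ^ (g + 1) := by ring
      linarith
    have h4 : 0 < ‖F.leadingCoeff‖ - 2 * T * (g + 1) / D ^ (g + 1) := by
      rw [sub_pos, div_lt_iff₀ hDp]
      have : (0 : ℝ) < 2 ^ (g + 2) := by positivity
      linarith
    calc 2 < (D / 2) ^ (g + 1) * (‖F.leadingCoeff‖ - 2 * T * (g + 1) / D ^ (g + 1)) := h3
      _ ≤ (∏ i, ‖x - b i‖) * ‖F.leadingCoeff + S‖ := by
          refine mul_le_mul hP (by linarith) h4.le ?_
          exact Finset.prod_nonneg fun i _ => norm_nonneg _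
  obtain ⟨η, hη, h2⟩ := exists_gap hdeg0 hout
  exact ⟨η, hdeg, Nat.succ_pos g, hρ, fun i j hij => by
    have := hsep i j hij
    linarith, hval2, hη, h2⟩

end Pool.Agent.TH690.UF
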